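import Pool.Agent.Lib.MP_bc213e_ag.SB.C.Onto

/-! The Euler characteristic of the direct image. -/

namespace Pool.Agent.Lib.MP_bc213e_ag.SB.Cs

open Pool.Agent.Lib.MP_bc213e_ag.Hyp Pool.Agent.Lib.MP_bc213e_ag.KBB OW OW.Ce Module Submodule
  Polynomial

variable {k κ : Type} [Field k] [Algebra ℂ k]

theorem coh_fd {l : Fin 3 → kˣ} (M : Coh l) (a : ℕ) : FD (dC k 3) (M.C a) fun _ => ⊥ := by
  have h := (Coh.pol 0 M (Coh.bot l) fun _ => bot_le).1 a
  rwa [C_bot 0] at h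

/-- The Euler characteristic is the constant term of the Hilbert polynomial. -/
theorem coh_eul {l : Fin 3 → kˣ} (M : Coh l) {q : ℚ[X]} {s₀ : ℕ}
    (h : ∀ s, s₀ ≤ s → (finrank ℂ (M.Γ s ∅) : ℚ) = q.eval (s : ℚ)) :
    (finrank ℂ (M.Γ 0 ∅) : ℚ) - Cardinal.toNat (hP (dC k 3) (M.C 0) (fun _ => ⊥) 1) +
      Cardinal.toNat (hP (dC k 3) (M.C 0) (fun _ => ⊥) 2) = q.eval 0 := by
  obtain ⟨-, p, hp⟩ := Coh.pol 0 M (Coh.bot l) fun _ => bot_le
  obtain ⟨a₀, h3⟩ := M.large 0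
  simp only [C_bot 0] at hp
  have e : p = q := by
    refine eq_of_infinite_eval_eq p q (Set.infinite_of_injective_forall_mem
      (f := fun a : ℕ => ((a₀ + s₀ + a : ℕ) : ℚ)) (fun a b e => by simpa using e) fun a => ?_)
    rw [Set.mem_ofPred_eq, ← hp, ← h _ (by omega), eul, Finset.sum_range_succ',
      Finset.sum_eq_zero fun p _ => by rw [(h3 _ (by omega)).2 p]; simp, M.hP_zero 0]
    simp [Module.finrank]
  have h4 := hp 0
  rw [e, eul, Finset.sum_range_succ, Finset.sum_range_succ, Finset.sum_range_one,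
    M.hP_zero 0] at h4
  rw [Nat.cast_zero] at h4
  rw [← h4]
  simp [Module.finrank, sub_eq_add_neg]

namespace Nn

variable {y : κ → kˣ} (n : Nn y) [Fintype κ] [Nonempty κ]

theorem C_zero (u : κ → kˣ) : (n.coh u).C 0 = cc (n.G u) := by
  rw [Coh.C, funext (n.Γ_zero u)]

theorem h_two (u : κ → kˣ) : hP (dC k 3) ((n.coh u).C 0) (fun _ => ⊥) 2 =
    rk (n.G u Finset.univ) (n.G u {0, 1} ⊔ n.G u {0, 2} ⊔ n.G u {1, 2}) := by
  rw [C_zero, hP_two fun _ _ => n.G_mono u]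

theorem h_one (zq : ZQ k) {u : κ → kˣ} (hu : ∀ b, u b = 1) :
    hP (dC k 3) ((n.coh u).C 0) (fun _ => ⊥) 1 = 0 := by
  rw [C_zero]
  refine hP_one (fun _ _ => n.G_mono u) fun f hf => ?_
  have e : ∀ i V, Ov (Set.range fun j => (n.l j : k) / n.l i) V ↔ On n.l i V := fun i V => by
    rw [on_iff, Ov, Set.forall_mem_range]
  obtain ⟨f₀, h⟩ := zq (Fin 3) (fun i => Set.range fun j => (n.l j : k) / n.l i) f
    (fun _ => Set.finite_range _) (fun V hV => (exists_on n.l hV.1).imp fun i => (e i V).2)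
    fun i j V h1 h2 => by
      obtain ⟨b, hb⟩ := exists_on y h1.1
      have h3 := hf i j b V (by simpa using ⟨(e i V).1 h1, (e j V).1 h2⟩) hb
      rwa [hu, Units.val_one, div_one] at h3
  refine ⟨f₀, fun i b V h1 _ => ?_⟩
  rw [hu, Units.val_one, div_one]
  exact h i V ((e i V).2 (h1 i (Finset.mem_singleton_self i)))

/-- A weak form of duality. -/
theorem h_bound (h : κ → kˣ) (s : ℕ) : ∃ c : ℕ, ∀ t : ℤ, c < finrank ℂ (SecS y h t s) →
    hP (dC k 3) ((n.coh fun b => h b ^ t).C 0) (fun _ => ⊥) 2 = 0 := by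
  have fd := coh_fd (n.coh fun b => (y b ^ s)⁻¹) 0 2
  rw [h_two] at fd
  refine ⟨_, fun t ht => by_contra fun ne => ht.not_ge (dual_bound fd ?_
    (fun f _ h0 r hr => n.onto _ _ h0 hr) (by rwa [h_two, rk_eq_zero] at ne))⟩
  intro f hf
  have m : ∀ σ, n.G (fun b => (y b ^ s)⁻¹) σ ≤
      (n.G (fun b => h b ^ t) σ).comap (LinearMap.mulLeft ℂ f) := fun σ r hr b V h1 h2 => by
    have e : LinearMap.mulLeft ℂ f r / ((h b ^ t : kˣ) : k) =
        f / ((h b : k) ^ t * (y b : k) ^ s) * (r / (((y b ^ s)⁻¹ : kˣ) : k)) := by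
      have := (y b).ne_zero
      rw [LinearMap.mulLeft_apply, Units.val_zpow_eq_zpow_val, Units.val_inv_eq_inv_val,
        Units.val_pow_eq_pow_val]
      field_simp
    rw [e]
    exact mul_mem (h2 _ (hf b)) (hr b V h1 h2)
  exact sup_le (c := comap (LinearMap.mulLeft ℂ f) _)
    (sup_le ((m _).trans (comap_mono (le_sup_left.trans le_sup_left)))
      ((m _).trans (comap_mono (le_sup_right.trans le_sup_left))))
    ((m _).trans (comap_mono le_sup_right))

end Nn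

end Pool.Agent.Lib.MP_bc213e_ag.SB.Cs
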