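import Pool.Agent.Lib.MP_bc213e_ag.SB.C.Sh

/-! Cech cohomology for a cover by three charts. -/

namespace Pool.Agent.Lib.MP_bc213e_ag.SB.Cs

open Pool.Agent.Lib.MP_bc213e_ag.Hyp Pool.Agent.Lib.MP_bc213e_ag.KBB OW OW.Ce Module Submodule

variable {k : Type} [Field k] [Algebra ℂ k]

theorem dC_univ (c : Finset (Fin 3) → k) :
    dC k 3 c Finset.univ = c {1, 2} - c {0, 2} + c {0, 1} := by
  have e0 : (Finset.univ : Finset (Fin 3)).erase 0 = {1, 2} := by decide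
  have e1 : (Finset.univ : Finset (Fin 3)).erase 1 = {0, 2} := by decide
  have e2 : (Finset.univ : Finset (Fin 3)).erase 2 = {0, 1} := by decide
  have f0 : ((Finset.univ : Finset (Fin 3)).filter (· < 0)).card = 0 := by decide
  have f1 : ((Finset.univ : Finset (Fin 3)).filter (· < 1)).card = 1 := by decide
  have f2 : ((Finset.univ : Finset (Fin 3)).filter (· < 2)).card = 2 := by decide
  rw [dC_apply, Fin.sum_univ_three, e0, e1, e2, f0, f1, f2]
  simp [sub_eq_add_neg]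

theorem card_two : ∀ σ : Finset (Fin 3), σ.card = 2 ∧ σ.Nonempty ↔
    σ = {0, 1} ∨ σ = {0, 2} ∨ σ = {1, 2} := by decide

theorem card_three : ∀ σ : Finset (Fin 3), σ.card = 3 ∧ σ.Nonempty ↔ σ = Finset.univ := by decide

/-- The top cohomology. -/
theorem hP_two {Γ : Finset (Fin 3) → Submodule ℂ k} (h : ∀ τ σ, τ ⊆ σ → Γ τ ≤ Γ σ) :
    hP (dC k 3) (cc Γ) (fun _ => ⊥) 2 = rk (Γ Finset.univ) (Γ {0, 1} ⊔ Γ {0, 2} ⊔ Γ {1, 2}) := by
  refine rk_map (LinearMap.proj Finset.univ)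
    (fun c hc => mem_sup_left ((mem_cc.1 hc.1 _).1 ((card_three _).2 rfl))) (fun r hr => ?_)
    fun c hc => ⟨fun h1 => mem_sup_left ?_, fun h1 => ?_⟩
  · have h1 : Pi.single Finset.univ r ∈ cc Γ 3 := mem_cc.2 fun σ => ⟨fun hs => by
      rwa [(card_three σ).1 hs, Pi.single_eq_same], fun hs =>
        Pi.single_eq_of_ne (fun e => hs ((card_three σ).2 e)) _⟩
    refine ⟨Pi.single Finset.univ r, ⟨h1, ?_⟩, by simp⟩
    have h2 := cc_cx h 3 _ h1
    rwa [cc_top] at h2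
  · obtain ⟨_, h2, w, hw, e⟩ := mem_sup.1 h1
    obtain ⟨u, hu, v, hv, rfl⟩ := mem_sup.1 h2
    let b : Finset (Fin 3) → k := fun σ =>
      if σ = {0, 1} then u else if σ = {0, 2} then -v else if σ = {1, 2} then w else 0
    have b1 : b {0, 1} = u := if_pos rfl
    have b2 : b {0, 2} = -v := (if_neg (by decide)).trans (if_pos rfl)
    have b3 : b {1, 2} = w := (if_neg (by decide)).trans ((if_neg (by decide)).trans (if_pos rfl))
    have hb : b ∈ cc Γ 2 := mem_cc.2 fun σ => ⟨fun hs => by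
      rcases (card_two σ).1 hs with rfl | rfl | rfl
      · exact b1 ▸ hu
      · exact b2 ▸ neg_mem hv
      · exact b3 ▸ hw, fun hs => by
      rw [card_two, not_or, not_or] at hs
      exact (if_neg hs.1).trans ((if_neg hs.2.1).trans (if_neg hs.2.2))⟩
    refine ⟨b, hb, funext fun σ => ?_⟩
    by_cases hs : σ.card = 3 ∧ σ.Nonempty
    · rw [(card_three σ).1 hs, dC_univ, b1, b2, b3]
      refine Eq.trans ?_ e
      ring
    · rw [(mem_cc.1 hc.1 σ).2 hs, (mem_cc.1 (cc_cx h 2 _ hb) σ).2 hs]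
  · rw [sup_bot_eq] at h1
    obtain ⟨b, hb, rfl⟩ := h1
    rw [LinearMap.proj_apply, dC_univ]
    have h2 := fun σ hs => (mem_cc.1 hb σ).1 ((card_two σ).2 hs)
    exact add_mem (sub_mem (mem_sup_right (h2 _ (Or.inr (Or.inr rfl))))
      (mem_sup_left (mem_sup_right (h2 _ (Or.inr (Or.inl rfl))))))
      (mem_sup_left (mem_sup_left (h2 _ (Or.inl rfl))))

/-- The first cohomology vanishes if all Cousin problems are solvable. -/
theorem hP_one {Γ : Finset (Fin 3) → Submodule ℂ k} (h : ∀ τ σ, τ ⊆ σ → Γ τ ≤ Γ σ)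
    (cous : ∀ f : Fin 3 → k, (∀ i j, f i - f j ∈ Γ {i, j}) → ∃ f₀, ∀ i, f i - f₀ ∈ Γ {i}) :
    hP (dC k 3) (cc Γ) (fun _ => ⊥) 1 = 0 := by
  refine rk_eq_zero.2 fun c hc => mem_sup_left ?_
  have h1 : c {1, 2} - c {0, 2} + c {0, 1} = 0 :=
    (dC_univ c).symm.trans (congrFun ((mem_bot ℂ).1 hc.2) _)
  have h2 := fun σ hs => (mem_cc.1 hc.1 σ).1 ((card_two σ).2 hs)
  let f : Fin 3 → k := ![0, c {0, 1}, c {0, 2}]
  have h3 : ∀ i j, i < j → f j - f i = c {i, j} := by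
    intro i j hij
    fin_cases i <;> fin_cases j <;> simp at hij <;> simp [f]
    linear_combination -h1
  have h4 : ∀ i j, i < j → f j - f i ∈ Γ {i, j} := fun i j hij =>
    h3 i j hij ▸ (mem_cc.1 hc.1 _).1 ⟨Finset.card_pair hij.ne, Finset.insert_nonempty _ _⟩
  obtain ⟨f₀, h5⟩ := cous f fun i j => by
    rcases lt_trichotomy i j with e | e | e
    · exact neg_sub (f j) (f i) ▸ neg_mem (h4 i j e)
    · rw [e, sub_self]
      exact zero_mem _
    · exact Finset.pair_comm j i ▸ h4 j i e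
  let b : Finset (Fin 3) → k := fun σ => if σ.card = 1 then ∑ i ∈ σ, (f i - f₀) else 0
  have b1 : ∀ i, b {i} = f i - f₀ := fun i => by simp [b]
  have hb : b ∈ cc Γ 1 := mem_cc.2 fun σ => ⟨fun hs => by
    obtain ⟨i, rfl⟩ := Finset.card_eq_one.1 hs.1
    exact b1 i ▸ h5 i, fun hs => if_neg fun e => hs ⟨e, Finset.card_pos.1 (by omega)⟩⟩
  refine ⟨b, hb, funext fun σ => ?_⟩
  by_cases hs : σ.card = 2 ∧ σ.Nonempty
  · have h6 : ∀ i j, i < j → dC k 3 b {i, j} = c {i, j} := fun i j hij => by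
      rw [dC_eq, MP_4287a9_ag.cdel_pair _ hij, b1, b1, ← h3 i j hij, sub_sub_sub_cancel_right]
    rcases (card_two σ).1 hs with rfl | rfl | rfl <;> exact h6 _ _ (by decide)
  · rw [(mem_cc.1 hc.1 σ).2 hs, (mem_cc.1 (cc_cx h 1 _ hb) σ).2 hs]

/-- A space of multipliers that act surjectively on a nonzero quotient is small. -/
theorem dual_bound {A B A' B' S : Submodule ℂ k} (fd : rk A' B' < Cardinal.aleph0)
    (hB : ∀ f ∈ S, ∀ r ∈ B', f * r ∈ B)
    (hA : ∀ f ∈ S, f ≠ 0 → ∀ r ∈ A, ∃ r' ∈ A', r - f * r' ∈ B) (ne : ¬ A ≤ B) :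
    finrank ℂ S ≤ Cardinal.toNat (rk A' B') := by
  obtain ⟨r₀, h1, h2⟩ := SetLike.not_le_iff_exists.1 ne
  obtain ⟨ξ, h3, h4⟩ := exists_le_ker_of_notMem h2
  have : FiniteDimensional ℂ (A'.map B'.mkQ) := Module.rank_lt_aleph0_iff.1 fd
  let Ψ : k →ₗ[ℂ] S →ₗ[ℂ] ℂ := ((LinearMap.mul ℂ k).compr₂ ξ ∘ₗ S.subtype).flip
  have hΨ : B' ≤ LinearMap.ker Ψ := fun r hr => LinearMap.ext fun f => h4 (hB f f.2 r hr)
  let Φ : S →ₗ[ℂ] Dual ℂ (A'.map B'.mkQ) := (B'.liftQ Ψ hΨ ∘ₗ (A'.map B'.mkQ).subtype).flip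
  have inj : Function.Injective Φ := by
    refine (injective_iff_map_eq_zero Φ).2 fun f hf => ?_
    by_contra h0
    obtain ⟨r', h5, h6⟩ := hA f f.2 (fun e => h0 (Subtype.ext e)) r₀ h1
    have h7 : ξ (f * r') = 0 := LinearMap.congr_fun hf ⟨_, r', h5, rfl⟩
    have h8 : ξ (r₀ - f * r') = 0 := h4 h6
    rw [map_sub, h7, sub_zero] at h8
    exact h3 h8
  exact (LinearMap.finrank_le_finrank_of_injective inj).trans (Subspace.dual_finrank_eq).le

end Pool.Agent.Lib.MP_bc213e_ag.SB.Cs
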