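import Pool.Agent.Lib.MP_bc213e_ag.SB.C.Eul

/-! A section on a regular surface. -/

namespace Pool.Agent.Lib.MP_bc213e_ag.SB

open Pool.Agent.Lib.MP_bc213e_ag.Hyp Pool.Agent.Lib.MP_bc213e_ag.KBB Module Polynomial

variable {k κ : Type} [Field k] [Algebra ℂ k] [Fintype κ] {y h : κ → kˣ} {b₀ : κ}

theorem surf_section (one : y b₀ = 1) (frac : ∀ b, IsFractionRing (chart y b) k)
    (norm : ∀ b, IsIntegrallyClosed (chart y b)) (hc : Cart y h)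
    (dim : Algebra.trdeg ℂ k = 2) (zq : ZQ k) {σ d : ℚ} {p₀ : ℚ[X]} {s₀ : ℕ}
    (hP : ∀ t s : ℕ, s₀ ≤ s →
      (finrank ℂ (SecS y h t s) : ℚ) = t * (σ + s * d) + p₀.eval (s : ℚ))
    (hσ : 0 ≤ σ) {s : ℕ} (hs : s₀ ≤ s) (pos : 0 < σ + s * d) :
    ∃ t : ℕ, 0 < t ∧ ∃ f, f ≠ 0 ∧ Sec y h t 0 f := by
  have _ := hc
  have : Nonempty κ := ⟨b₀⟩
  obtain ⟨n⟩ := Cs.exists_nn one (frac b₀) dim
  have eul := fun t : ℕ => Cs.coh_eul (n.coh fun b => h b ^ (t : ℤ)) (s₀ := s₀)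
    (q := C (t : ℚ) * (C σ + X * C d) + p₀) fun a ha => by
      rw [n.Γ_empty frac norm, hP t a ha]
      simp only [eval_add, eval_mul, eval_C, eval_X]
  have p1 : 1 ≤ p₀.eval 0 := by
    have h1 := eul 0
    have fd := Cs.coh_fd (n.coh fun b => h b ^ ((0 : ℕ) : ℤ)) 0 0
    rw [OW.Ce.Coh.hP_zero _ 0, n.Γ_empty frac norm] at fd
    have := Module.rank_lt_aleph0_iff.1 fd
    have h2 : 0 < finrank ℂ (SecS y h ((0 : ℕ) : ℤ) 0) :=
      finrank_pos_iff_exists_ne_zero.2 ⟨⟨1, KBD.sec_one y h⟩, fun e => one_ne_zero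
        (congrArg Subtype.val e)⟩
    rw [n.h_one zq fun b => by simp, n.Γ_empty frac norm] at h1
    simp only [map_zero, Nat.cast_zero, sub_zero, zero_mul, zero_add] at h1
    rw [← h1]
    exact le_add_of_le_of_nonneg (by exact_mod_cast h2) (Nat.cast_nonneg _)
  obtain ⟨c, hb⟩ := n.h_bound h s
  obtain ⟨t, ht⟩ := exists_nat_gt ((c - p₀.eval (s : ℚ)) / (σ + s * d))
  have h1 : c < finrank ℂ (SecS y h ((t + 1 : ℕ) : ℤ) s) := by
    rw [div_lt_iff₀ pos] at ht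
    rw [← Nat.cast_lt (α := ℚ), hP _ s hs]
    push_cast
    linarith
  have h2 := eul (t + 1)
  rw [hb _ h1, n.Γ_empty frac norm] at h2
  simp only [map_zero, Nat.cast_zero, add_zero, eval_add, eval_mul, eval_C, eval_X,
    zero_mul] at h2
  have h3 : 0 < finrank ℂ (SecS y h ((t + 1 : ℕ) : ℤ) 0) := by
    rw [← Nat.cast_pos (α := ℚ), eq_add_of_sub_eq h2]
    positivity
  have := Module.nontrivial_of_finrank_pos h3
  obtain ⟨f, hf⟩ := exists_ne (0 : SecS y h ((t + 1 : ℕ) : ℤ) 0)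
  exact ⟨t + 1, t.succ_pos, f, fun e => hf (Subtype.ext e), f.2⟩

end Pool.Agent.Lib.MP_bc213e_ag.SB
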