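import Pool.Agent.Lib.MP_bc213e_ag.SB.M.Main
import Pool.Agent.Lib.MP_bc213e_ag.KBD.Lift

/-! A finite linear projection of a projective surface to the plane. -/

namespace Pool.Agent.Lib.MP_bc213e_ag.SB.Cs

open Pool.Agent.Lib.MP_bc213e_ag.Hyp Pool.Agent.Lib.MP_bc213e_ag.KBB Module

variable {k κ ι : Type} [Field k] [Algebra ℂ k]

/-- The valuation ring `V` contains the chart `i`. -/
def On (x : ι → kˣ) (i : ι) (V : ValuationSubring k) : Prop := ∀ r ∈ chart x i, r ∈ V

theorem on_iff {x : ι → kˣ} {i : ι} {V : ValuationSubring k} :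
    On x i V ↔ (∀ c : ℂ, algebraMap ℂ k c ∈ V) ∧ ∀ j, (x j : k) / x i ∈ V := by
  refine ⟨fun h => ⟨fun c => h _ ((chart x i).algebraMap_mem c), fun j => h _ (Basic_mem x i j)⟩,
    fun h r hr => ?_⟩
  induction hr using Algebra.adjoin_induction with
  | mem r hr =>
    obtain ⟨l, rfl⟩ := hr
    exact h.2 l
  | algebraMap c => exact h.1 c
  | add _ _ _ _ h1 h2 => exact add_mem h1 h2
  | mul _ _ _ _ h1 h2 => exact mul_mem h1 h2

theorem On.const {x : ι → kˣ} {i : ι} {V : ValuationSubring k} (h : On x i V) (c : ℂ) :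
    algebraMap ℂ k c ∈ V := (on_iff.1 h).1 c

theorem On.div {x : ι → kˣ} {i : ι} {V : ValuationSubring k} (h : On x i V) (j : ι) :
    (x j : k) / x i ∈ V := (on_iff.1 h).2 j

theorem exists_on [Finite ι] [Nonempty ι] (x : ι → kˣ) {V : ValuationSubring k}
    (hc : ∀ c : ℂ, algebraMap ℂ k c ∈ V) : ∃ i, On x i V := by
  obtain ⟨a, ha⟩ := Finite.exists_max fun a => V.valuation (x a : k)
  refine ⟨a, on_iff.2 ⟨hc, fun j => ?_⟩⟩
  rw [← V.valuation_le_one_iff, map_div₀]
  exact div_le_one_of_le₀ (ha j) zero_le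

theorem On.trans {x : ι → kˣ} {i j : ι} {V : ValuationSubring k} (h : On x i V)
    (h' : (x i : k) / x j ∈ V) : On x j V := by
  refine on_iff.2 ⟨h.const, fun m => ?_⟩
  rw [← div_mul_div_cancel₀ (x i).ne_zero]
  exact mul_mem (h.div m) h'

/-- Clearing a denominator on the intersection of two charts. -/
theorem clear_two (x : ι → kˣ) (y : κ → kˣ) (i : ι) (b : κ) {w f : k} (hw : w ∈ chart x i)
    (h0 : w ≠ 0) (h : ∀ V, On x i V → On y b V → w⁻¹ ∈ V → f ∈ V) :
    ∃ e : ℕ, ∀ V, On x i V → On y b V → f * w ^ e ∈ V := by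
  obtain ⟨e, he⟩ := clear_pow ((chart x i).toSubring ⊔ (chart y b).toSubring) (f := f)
    (le_sup_left (a := (chart x i).toSubring) hw) h0 fun V hV hw' =>
      h V (fun r hr => hV r (le_sup_left (a := (chart x i).toSubring) hr))
        (fun r hr => hV r (le_sup_right (b := (chart y b).toSubring) hr)) hw'
  exact ⟨e, fun V h1 h2 => he V fun r hr => (sup_le (c := V.toSubring) h1 h2) hr⟩

omit [Algebra ℂ k] in
theorem pow_up {V : ValuationSubring k} {f w : k} {e e' : ℕ} (hw : w ∈ V) (h : f * w ^ e ∈ V)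
    (le : e ≤ e') : f * w ^ e' ∈ V := by
  obtain ⟨c, rfl⟩ := Nat.exists_eq_add_of_le le
  rw [pow_add, ← mul_assoc]
  exact mul_mem h (pow_mem hw c)

theorem clear_chart (x : ι → kˣ) (i j : ι) {f : k} (h : ∀ V, On x i V → f ∈ V) :
    ∃ e : ℕ, ∀ V, On x j V → f * ((x i : k) / x j) ^ e ∈ V := by
  obtain ⟨e, he⟩ := clear_two x x j j (f := f) (Basic_mem x j i)
    (div_ne_zero (x i).ne_zero (x j).ne_zero) fun V h1 _ h2 => h V (h1.trans (by rwa [inv_div] at h2))
  exact ⟨e, fun V hV => he V hV hV⟩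

/-- A finite linear projection to the plane. -/
structure Nn (y : κ → kˣ) where
  l : Fin 3 → kˣ
  mem : ∀ i b, (l i : k) / y b ∈ chart y b
  bd : ∀ i b V, On l i V → (y b : k) / l i ∈ V
  fg : ∀ i, ∃ P : Submodule (chart l i) k, P.FG ∧ ∀ f, (∀ V, On l i V → f ∈ V) → f ∈ P
  den : ∀ i (w : k), ∃ c ∈ chart l i, c ≠ 0 ∧ ∀ V, On l i V → c * w ∈ V

theorem mem_of_int {A : Subalgebra ℂ k} {V : ValuationSubring k} (h : ∀ r ∈ A, r ∈ V) {r : k}
    (hr : IsIntegral A r) : r ∈ V := by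
  let φ : A →+* V := A.val.toRingHom.codRestrict V.toSubring fun z => h z z.2
  let _ := φ.toAlgebra
  have : IsScalarTower A V k := .of_algebraMap_eq fun _ => rfl
  obtain ⟨y, rfl⟩ := IsIntegrallyClosed.isIntegral_iff.1 (hr.tower_top (A := V))
  exact y.2

theorem exists_nn [Fintype κ] {y : κ → kˣ} {b₀ : κ} (one : y b₀ = 1)
    (frac : IsFractionRing (chart y b₀) k) (dim : Algebra.trdeg ℂ k = 2) : Nonempty (Nn y) := by
  have gen : IntermediateField.adjoin ℂ (Set.range fun b => (y b : k)) = ⊤ := by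
    refine eq_top_iff.2 fun z _ => ?_
    obtain ⟨a, b, -, rfl⟩ := IsFractionRing.div_surjective (chart y b₀) z
    have e : chart y b₀ = Algebra.adjoin ℂ (Set.range fun b => (y b : k)) := by
      simp only [chart, one, Units.val_one, div_one]
    have h : ∀ r : chart y b₀, algebraMap (chart y b₀) k r ∈
        IntermediateField.adjoin ℂ (Set.range fun b => (y b : k)) := fun r =>
      IntermediateField.algebra_adjoin_le_adjoin ℂ _ (e ▸ r.2)
    exact div_mem (h a) (h b)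
  obtain ⟨z, hz, tb, hy, -, δ, c₀, β, hβ⟩ := DB.gcd (n := 2) (fun b => (y b : k))
    (fun b => (y b : k)) (fun b => ⟨1, DB.span_le_Bd _ (Submodule.subset_span ⟨b, rfl⟩)⟩) gen
    (by exact_mod_cast dim)
  have z0 : ∀ j, z j ≠ 0 := fun j => tb.1.ne_zero j
  let l : Fin 3 → kˣ := Fin.cons 1 fun j => Units.mk0 (z j) (z0 j)
  have l0 : (l 0 : k) = 1 := rfl
  have ls : ∀ j : Fin 2, (l j.succ : k) = z j := fun _ => rfl
  have hB : ∀ {μ r}, r ∈ DB.Bd ℂ z μ → ∀ i V, On l i V → r / (l i : k) ^ μ ∈ V :=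
    fun hr i V hV => hr V _ hV.const (l i).ne_zero (by simpa [l0] using hV.div 0)
      fun j => hV.div j.succ
  have hB' : ∀ {μ r}, (∀ i V, On l i V → r / (l i : k) ^ μ ∈ V) → r ∈ DB.Bd ℂ z μ := by
    intro μ r hr V c h1 h2 h3 h4
    obtain ⟨i, hi⟩ := exists_on l h1
    have h5 : (l i : k) / c ∈ V := by
      refine Fin.cases ?_ (fun j => h4 j) i
      rwa [l0, one_div]
    have h6 := mul_mem (hr i V hi) (pow_mem h5 μ)
    rwa [div_pow, div_mul_div_cancel₀ (pow_ne_zero _ (l i).ne_zero)] at h6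
  have den0 : ∀ w : k, ∃ c ∈ chart l 0, c ≠ 0 ∧ ∀ V, On l 0 V → c * w ∈ V := by
    intro w
    have le : Algebra.adjoin ℂ (Set.range z) ≤ chart l 0 := Algebra.adjoin_le (by
      rintro _ ⟨j, rfl⟩
      simpa [l0, ls] using Basic_mem l 0 j.succ)
    obtain ⟨c, hc, hi⟩ := (tb.isAlgebraic.isAlgebraic w).exists_integral_multiple
    exact ⟨c, le c.2, fun h => hc (Subtype.ext h), fun V hV =>
      mem_of_int (fun r hr => hV r (le hr)) hi⟩
  refine ⟨⟨l, fun i b => ?_, fun i b V hV => by simpa using hB (hy b) i V hV, fun i => ?_,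
    fun i w => ?_⟩⟩
  · have h1 : (l i : k) ∈ Submodule.span ℂ (Set.range fun b => (y b : k)) := by
      refine Fin.cases ?_ (fun j => hz j) i
      exact Submodule.subset_span ⟨b₀, by simp [one, l0]⟩
    obtain ⟨c, hc⟩ := (Submodule.mem_span_range_iff_exists_fun ℂ).1 h1
    rw [← hc, Finset.sum_div]
    refine sum_mem fun j _ => ?_
    rw [smul_div_assoc]
    exact (chart y b).smul_mem (Basic_mem y b j) _
  · refine ⟨Submodule.span _ (Set.range fun j => (l i : k) ^ c₀ * β j),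
      Submodule.fg_span (Set.finite_range _), fun f hf => ?_⟩
    choose e he using fun j => clear_chart l i j hf
    obtain ⟨p, hp, hf'⟩ := hβ (Finset.univ.sup e) (f * (l i : k) ^ Finset.univ.sup e)
      (hB' fun j V hV => by
        rw [mul_div_assoc, ← div_pow]
        exact pow_up (hV.div i) (he j V hV) (Finset.le_sup (Finset.mem_univ j)))
    rw [eq_div_of_mul_eq (pow_ne_zero _ (l i).ne_zero) hf', Finset.sum_div]
    refine sum_mem fun j _ => ?_
    have h1 := OW.Ce.serA_pow i _ _ (DB.aeval_mem_pow (Vs ℂ l) (uvf0_x l 0) z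
      (fun j => uvf0_x l j.succ) (p j) (hp j))
    have h2 : MvPolynomial.aeval z (p j) * β j / (l i : k) ^ Finset.univ.sup e =
        (⟨_, h1⟩ : chart l i) • ((l i : k) ^ c₀ * β j) := by
      have := (l i).ne_zero
      rw [Subalgebra.smul_def, smul_eq_mul, Subtype.coe_mk, pow_add]
      field_simp
    rw [h2]
    exact Submodule.smul_mem _ _ (Submodule.subset_span ⟨j, rfl⟩)
  · obtain ⟨c, hc, h0, hw⟩ := den0 w
    obtain ⟨e, he⟩ := chart_trans l 0 i hc
    obtain ⟨e', he'⟩ := clear_chart l 0 i hw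
    refine ⟨c * ((l 0 : k) / l i) ^ (e + e'), ?_, mul_ne_zero h0 (pow_ne_zero _
      (div_ne_zero (l 0).ne_zero (l i).ne_zero)), fun V hV => ?_⟩
    · rw [pow_add, ← mul_assoc]
      exact mul_mem he (pow_mem (Basic_mem l i 0) _)
    · rw [mul_right_comm]
      exact pow_up (hV.div 0) (he' V hV) (Nat.le_add_left _ _)

end Pool.Agent.Lib.MP_bc213e_ag.SB.Cs
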