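import Pool.Agent.Lib.MP_bc213e_ag.SB.C.Ho

/-! Multiplication by a nonzero section is onto on the top cohomology. -/

namespace Pool.Agent.Lib.MP_bc213e_ag.SB.Cs

open Pool.Agent.Lib.MP_bc213e_ag.Hyp Pool.Agent.Lib.MP_bc213e_ag.KBB OW OW.Ce Module Submodule
  Polynomial

variable {k κ : Type} [Field k] [Algebra ℂ k]

theorem onto_step {N A B : Submodule ℂ k} {x T q : k} (hx : x ≠ 0) (hq : ∀ n ∈ N, q * n ∈ N)
    (NB : N ≤ B) (NA : ∀ n ∈ N, ∀ a : ℕ, n / x ^ a ∈ A)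
    (hT : ∀ n ∈ N, ∃ n' ∈ N, ∀ a : ℕ, (n - T * n') / x ^ a ∈ B) (α a : ℕ) :
    ∀ r, r * x ^ a ∈ N → ∃ r' ∈ A, r - x ^ α * (T + x * q) * r' ∈ B := by
  induction a with
  | zero => exact fun r hr => ⟨0, zero_mem _, by simpa using NB hr⟩
  | succ a ih =>
    intro r hr
    obtain ⟨n', h1, h2⟩ := hT _ hr
    obtain ⟨r₁, h3, h4⟩ := ih (-(q * n') / x ^ a) (by
      rw [div_mul_cancel₀ _ (pow_ne_zero a hx)]
      exact neg_mem (hq _ h1))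
    refine ⟨n' / x ^ (a + 1 + α) + r₁, add_mem (NA _ h1 _) h3, ?_⟩
    have e : r - x ^ α * (T + x * q) * (n' / x ^ (a + 1 + α) + r₁) =
        (r * x ^ (a + 1) - T * n') / x ^ (a + 1) +
          (-(q * n') / x ^ a - x ^ α * (T + x * q) * r₁) := by
      field_simp
      ring
    rw [e]
    exact add_mem (h2 _) h4

theorem poly_dec {R : Type} [CommRing R] {P : R[X]} (h : P ≠ 0) :
    ∃ (α : ℕ) (c : R) (Q : R[X]), c ≠ 0 ∧ P = X ^ α * (C c + X * Q) := by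
  obtain ⟨Q, h1, h2⟩ := exists_eq_pow_rootMultiplicity_mul_and_not_dvd P h 0
  rw [C_0, sub_zero] at h1 h2
  exact ⟨_, Q.coeff 0, Q.divX, fun e => h2 (X_dvd_iff.2 e), by
    rw [add_comm, mul_comm X Q.divX, divX_mul_X_add]
    exact h1⟩

theorem chart_dec (l : Fin 3 → kˣ) {p : k} (hp : p ∈ chart l 0) (h0 : p ≠ 0) :
    ∃ (α β : ℕ) (c : ℂ) (q₁ q₂ : k), c ≠ 0 ∧ q₁ ∈ chart l 0 ∧ q₂ ∈ chart l 0 ∧
      p = ((l 1 : k) / l 0) ^ α * (((l 2 : k) / l 0) ^ β *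
        (algebraMap ℂ k c + (l 2 : k) / l 0 * q₂) + (l 1 : k) / l 0 * q₁) := by
  let ψ : ℂ[X][X] →ₐ[ℂ] chart l 0 := aevalAeval ⟨_, Basic_mem l 0 2⟩ ⟨_, Basic_mem l 0 1⟩
  let φ := (chart l 0).val.comp ψ
  have m : ∀ P, φ P ∈ chart l 0 := fun P => (ψ P).2
  have e1 : φ X = (l 1 : k) / l 0 := congrArg Subtype.val (aevalAeval_Y _ _)
  have e2 : φ (C X) = (l 2 : k) / l 0 := congrArg Subtype.val (aevalAeval_X _ _)
  have le : chart l 0 ≤ φ.range := Algebra.adjoin_le (by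
    rintro _ ⟨j, rfl⟩
    fin_cases j
    · exact ⟨1, by simp⟩
    · exact ⟨_, e1⟩
    · exact ⟨_, e2⟩)
  obtain ⟨P, rfl⟩ := le hp
  obtain ⟨α, P₀, Q₁, h1, rfl⟩ := poly_dec (P := P) fun e => h0 (by rw [e, map_zero])
  obtain ⟨β, c, Q₂, h2, rfl⟩ := poly_dec h1
  refine ⟨α, β, c, φ Q₁, φ (C Q₂), h2, m _, m _, ?_⟩
  have e3 : φ (C (C c)) = algebraMap ℂ k c := φ.commutes c
  simp only [map_mul, map_add, map_pow, AlgHom.toRingHom_eq_coe, RingHom.coe_coe, e1, e2, e3]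

namespace Nn

variable {y : κ → kˣ} (n : Nn y) (u : κ → kˣ)

theorem G_mul {σ : Finset (Fin 3)} {i : Fin 3} (hi : i ∈ σ) {q r : k} (hq : q ∈ chart n.l i)
    (hr : r ∈ n.G u σ) : q * r ∈ n.G u σ := fun b V h1 h2 => by
  rw [mul_div_assoc]
  exact mul_mem (h1 i hi _ hq) (hr b V h1 h2)

theorem G_div {τ σ : Finset (Fin 3)} (h : τ ⊆ σ) (i : Fin 3) {j : Fin 3} (hj : j ∈ σ) {r : k}
    (hr : r ∈ n.G u τ) (a : ℕ) : r / ((n.l j : k) / n.l i) ^ a ∈ n.G u σ := fun b V h1 h2 => by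
  rw [div_right_comm, div_eq_mul_inv (r / _), ← inv_pow, inv_div]
  exact mul_mem (hr b V (fun m hm => h1 m (h hm)) h2) (pow_mem ((h1 j hj).div i) a)

theorem G_mono {τ σ : Finset (Fin 3)} (h : τ ⊆ σ) : n.G u τ ≤ n.G u σ :=
  fun _ hr b V h1 h2 => hr b V (fun m hm => h1 m (h hm)) h2

theorem G_pow [Fintype κ] {σ : Finset (Fin 3)} {i : Fin 3} (hi : i ∈ σ) (j : Fin 3) {r : k}
    (hr : r ∈ n.G u (insert j σ)) : ∃ a : ℕ, r * ((n.l j : k) / n.l i) ^ a ∈ n.G u σ := by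
  obtain ⟨e, he⟩ := n.GM_pow u i (r := r) (pr_mem (insert j σ) i) (n.pr_ne _ i)
    fun b V h1 h2 h3 => hr b V ((n.pr_inv h1).1 h3) h2
  by_cases hj : j ∈ σ
  · exact ⟨0, by rwa [pow_zero, mul_one, ← Finset.insert_eq_of_mem hj]⟩
  refine ⟨e, fun b V h1 h2 => ?_⟩
  have h3 := mul_mem (he b V (h1 i hi) h2) (pow_mem ((n.pr_inv (h1 i hi)).2 h1) e)
  rwa [OW.Ce.pr, Finset.prod_insert hj, ← OW.Ce.pr, mul_pow, ← mul_assoc, mul_div_right_comm,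
    mul_assoc, ← mul_pow, mul_inv_cancel₀ (n.pr_ne σ i), one_pow, mul_one] at h3

theorem onto_poly [Fintype κ] {p : k} (hp : p ∈ chart n.l 0) (h0 : p ≠ 0) {r : k}
    (hr : r ∈ n.G u Finset.univ) :
    ∃ r' ∈ n.G u Finset.univ, r - p * r' ∈ n.G u {0, 1} ⊔ n.G u {0, 2} := by
  obtain ⟨α, β, c, q₁, q₂, hc, h1, h2, rfl⟩ := chart_dec n.l hp h0
  have ne : ∀ j, (n.l j : k) / n.l 0 ≠ 0 := fun j => div_ne_zero (n.l j).ne_zero (n.l 0).ne_zero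
  obtain ⟨a, ha⟩ := n.G_pow u (σ := {0, 2}) (i := 0) (by decide) 1 (n.G_mono u (by decide) hr)
  refine onto_step (ne 1) (fun m hm => n.G_mul u (by decide) h1 hm) le_sup_right
    (fun m hm a => n.G_div u (by decide) 0 (by decide) hm a) (fun m hm => ?_) α a r ha
  obtain ⟨b, hb⟩ := n.G_pow u (σ := {0}) (i := 0) (by decide) 2 (n.G_mono u (by decide) hm)
  obtain ⟨m', h3, h4⟩ := onto_step (A := n.G u {0, 2}) (T := algebraMap ℂ k c) (ne 2)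
    (fun m hm => n.G_mul u (by decide) h2 hm) le_rfl
    (fun m hm a => n.G_div u (by decide) 0 (by decide) hm a) (fun m hm => ⟨c⁻¹ • m, smul_mem _ _ hm,
      fun a => by
        rw [← Algebra.smul_def, smul_smul, mul_inv_cancel₀ hc, one_smul, sub_self, zero_div]
        exact zero_mem _⟩) β b m hb
  exact ⟨m', h3, fun a => mem_sup_left (n.G_div u (by decide) 0 (by decide) h4 a)⟩

/-- Multiplication by a nonzero `f` is onto on the top cohomology. -/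
theorem onto [Fintype κ] (u' : κ → kˣ) {f : k} (h0 : f ≠ 0) {r : k} (hr : r ∈ n.G u Finset.univ) :
    ∃ r' ∈ n.G u' Finset.univ, r - f * r' ∈ n.G u {0, 1} ⊔ n.G u {0, 2} ⊔ n.G u {1, 2} := by
  obtain ⟨p, h1, h2, h3⟩ := n.den_all 0 fun b => (u b : k) / u' b / f
  obtain ⟨r', h4, h5⟩ := n.onto_poly u h1 h2 hr
  refine ⟨p * r' / f, fun b V h6 h7 => ?_, mem_sup_left (by rwa [mul_div_cancel₀ _ h0])⟩
  have e : p * r' / f / u' b = p * ((u b : k) / u' b / f) * (r' / u b) := by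
    have := (u b).ne_zero
    field_simp
  rw [e]
  exact mul_mem (h3 b V (h6 0 (Finset.mem_univ _))) (h4 b V h6 h7)

end Nn

end Pool.Agent.Lib.MP_bc213e_ag.SB.Cs
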