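import Pool.Agent.Lib.MP_bc213e_ag.SB.C.Nn

/-! The direct image of a line bundle under the projection to the plane. -/

namespace Pool.Agent.Lib.MP_bc213e_ag.SB.Cs

open Pool.Agent.Lib.MP_bc213e_ag.Hyp Pool.Agent.Lib.MP_bc213e_ag.KBB OW.Ce Module

variable {k κ : Type} [Field k] [Algebra ℂ k] {y : κ → kˣ} (n : Nn y) (u : κ → kˣ)

namespace Nn

/-- Sections over the preimage of the intersection of the charts in `σ`. -/
def G (σ : Finset (Fin 3)) : Submodule ℂ k where
  carrier := {r | ∀ b V, (∀ j ∈ σ, On n.l j V) → On y b V → r / u b ∈ V}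
  add_mem' := fun ha hb b V h1 h2 => by
    rw [add_div]
    exact add_mem (ha b V h1 h2) (hb b V h1 h2)
  zero_mem' := fun b V _ _ => by
    rw [zero_div]
    exact zero_mem _
  smul_mem' := fun c r hr b V h1 h2 => by
    rw [Algebra.smul_def, mul_div_assoc]
    exact mul_mem (h2.const c) (hr b V h1 h2)

theorem mem_G {σ : Finset (Fin 3)} {r : k} :
    r ∈ n.G u σ ↔ ∀ b V, (∀ j ∈ σ, On n.l j V) → On y b V → r / u b ∈ V := Iff.rfl

/-- Sections over the preimage of one chart. -/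
def GM (i : Fin 3) : Submodule (chart n.l i) k where
  carrier := {r | ∀ b V, On n.l i V → On y b V → r / u b ∈ V}
  add_mem' := fun ha hb b V h1 h2 => by
    rw [add_div]
    exact add_mem (ha b V h1 h2) (hb b V h1 h2)
  zero_mem' := fun b V _ _ => by
    rw [zero_div]
    exact zero_mem _
  smul_mem' := fun c r hr b V h1 h2 => by
    rw [Subalgebra.smul_def, smul_eq_mul, mul_div_assoc]
    exact mul_mem (h1 _ c.2) (hr b V h1 h2)

theorem mem_GM {i : Fin 3} {r : k} :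
    r ∈ n.GM u i ↔ ∀ b V, On n.l i V → On y b V → r / u b ∈ V := Iff.rfl

variable [Fintype κ]

/-- A common denominator. -/
theorem den_all (i : Fin 3) (w : κ → k) :
    ∃ c ∈ chart n.l i, c ≠ 0 ∧ ∀ b V, On n.l i V → c * w b ∈ V := by
  classical
  choose c h1 h2 h3 using fun b => n.den i (w b)
  refine ⟨∏ b, c b, prod_mem fun b _ => h1 b, Finset.prod_ne_zero_iff.2 fun b _ => h2 b,
    fun b V hV => ?_⟩
  rw [← Finset.mul_prod_erase _ _ (Finset.mem_univ b), mul_right_comm]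
  exact mul_mem (h3 b V hV) (hV _ (prod_mem fun b _ => h1 b))

theorem GM_fg [Nonempty κ] (i : Fin 3) : (n.GM u i).FG := by
  have := chart_noeth n.l i
  obtain ⟨P, hP, h⟩ := n.fg i
  obtain ⟨c, -, h0, hc⟩ := n.den_all i fun b => u b
  refine (hP.map (LinearMap.mulRight (chart n.l i) c⁻¹)).of_le fun r hr =>
    ⟨r * c, h _ fun V hV => ?_, mul_inv_cancel_right₀ h0 r⟩
  obtain ⟨b, hb⟩ := exists_on y hV.const
  have h1 := mul_mem (hr b V hV hb) (hc b V hV)
  rwa [mul_comm c, ← mul_assoc, div_mul_cancel₀ _ (u b).ne_zero] at h1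

theorem GM_pow (i : Fin 3) {r w : k} (hw : w ∈ chart n.l i) (h0 : w ≠ 0)
    (h : ∀ b V, On n.l i V → On y b V → w⁻¹ ∈ V → r / u b ∈ V) :
    ∃ e : ℕ, r * w ^ e ∈ n.GM u i := by
  choose e he using fun b => clear_two n.l y i b hw h0 (h b)
  refine ⟨Finset.univ.sup e, fun b V h1 h2 => ?_⟩
  rw [mul_div_right_comm]
  exact pow_up (h1 _ hw) (he b V h1 h2) (Finset.le_sup (Finset.mem_univ b))

/-- The direct image of the line bundle with local generators `u`. -/
def coh [Nonempty κ] : Coh n.l where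
  M := n.GM u
  fg := n.GM_fg u
  glue i j r hr := n.GM_pow u j (Basic_mem n.l j i) (div_ne_zero (n.l i).ne_zero (n.l j).ne_zero)
    fun b V h1 h2 h3 => hr b V (h1.trans (by rwa [inv_div] at h3)) h2

omit [Fintype κ] in
theorem pr_ne (σ : Finset (Fin 3)) (i : Fin 3) : pr n.l σ i ≠ 0 :=
  Finset.prod_ne_zero_iff.2 fun j _ => div_ne_zero (n.l j).ne_zero (n.l i).ne_zero

omit [Fintype κ] in
theorem pr_inv {σ : Finset (Fin 3)} {i : Fin 3} {V : ValuationSubring k} (h : On n.l i V) :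
    (pr n.l σ i)⁻¹ ∈ V ↔ ∀ j ∈ σ, On n.l j V := by
  refine ⟨fun h1 j hj => h.trans ?_, fun h1 => ?_⟩
  · have h2 := mul_mem h1 (h _ (pr_mem (σ.erase j) i))
    rwa [OW.Ce.pr, ← Finset.mul_prod_erase _ _ hj, mul_inv, mul_assoc, ← OW.Ce.pr,
      inv_mul_cancel₀ (n.pr_ne _ i), mul_one, inv_div] at h2
  · rw [OW.Ce.pr, ← Finset.prod_inv_distrib]
    exact prod_mem fun j hj => by
      rw [inv_div]
      exact (h1 j hj).div i

theorem Γ_zero [Nonempty κ] (σ : Finset (Fin 3)) : (n.coh u).Γ 0 σ = n.G u σ := by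
  ext r
  rw [Coh.mem_Γ, mem_G]
  simp only [pow_zero, div_one]
  refine ⟨fun ⟨e, he⟩ b V h1 h2 => ?_, fun h => ?_⟩
  · obtain ⟨i, hi⟩ := exists_on n.l h2.const
    have h3 := mul_mem (he i b V hi h2) (pow_mem ((n.pr_inv hi).2 h1) e)
    rwa [mul_div_right_comm, mul_assoc, ← mul_pow, mul_inv_cancel₀ (n.pr_ne σ i), one_pow,
      mul_one] at h3
  · choose e he using fun i => n.GM_pow u i (r := r) (pr_mem σ i) (n.pr_ne σ i)
      fun b V h1 h2 h3 => h b V ((n.pr_inv h1).1 h3) h2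
    refine ⟨Finset.univ.sup e, fun i => ?_⟩
    obtain ⟨c, hc⟩ := Nat.exists_eq_add_of_le (Finset.le_sup (f := e) (Finset.mem_univ i))
    rw [hc]
    exact (n.coh u).mono (pr_mem σ i) c (he i)

theorem Γ_empty [Nonempty κ] (frac : ∀ b, IsFractionRing (chart y b) k)
    (norm : ∀ b, IsIntegrallyClosed (chart y b)) (h : κ → kˣ) (t : ℤ) (a : ℕ) :
    (n.coh fun b => h b ^ t).Γ a ∅ = SecS y h t a := by
  ext r
  rw [Coh.mem_Γ_empty]
  have e : ∀ i b, r / ((h b : k) ^ t * (y b : k) ^ a) =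
      r / (n.l i : k) ^ a / ((h b ^ t : kˣ) : k) * ((n.l i : k) / y b) ^ a := fun i b => by
    have := (n.l i).ne_zero
    rw [Units.val_zpow_eq_zpow_val, div_pow]
    field_simp
  refine ⟨fun h1 b => ?_, fun h1 i b V h2 h3 => ?_⟩
  · have := frac b
    have := norm b
    refine mem_of_val _ fun V hV => ?_
    obtain ⟨i, hi⟩ := exists_on n.l (On.const hV)
    rw [e i]
    exact mul_mem (h1 i b V hi hV) (pow_mem (hV _ (n.mem i b)) a)
  · have h4 := mul_mem (h3 _ (h1 b)) (pow_mem (n.bd i b V h2) a)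
    rwa [e i, mul_assoc, ← mul_pow, div_mul_div_cancel₀ (y b).ne_zero, div_self (n.l i).ne_zero,
      one_pow, mul_one] at h4

end Nn

end Pool.Agent.Lib.MP_bc213e_ag.SB.Cs
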